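import Pool.Agent.P.MP_f981b0_an.PB.Asym
import Pool.Agent.P.MP_65e938_an.Main

/-!
A reductive power bounded operator whose adjoint powers tend to zero strongly has powers that
tend to zero strongly.
-/

set_option autoImplicit false

noncomputable section

namespace Pool.Agent.P.MP_49c4d9_an.PBR

open Set Filter Topology ContinuousLinearMap Pool.Agent.P.MP_f981b0_an.PB
open scoped InnerProductSpace

variable {H : Type*} [NormedAddCommGroup H] [InnerProductSpace ℂ H] [CompleteSpace H]

/-- Every closed invariant subspace is invariant under the adjoint. -/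
def Red (T : H →L[ℂ] H) : Prop :=
  ∀ K : Submodule ℂ H, IsClosed (K : Set H) → (∀ x ∈ K, T x ∈ K) → ∀ x ∈ K, adjoint T x ∈ K

theorem refl_hilbert : Function.Surjective (NormedSpace.inclusionInDoubleDual ℂ H) := by
  intro Ψ
  let L : H →L[ℂ] ℂ := LinearMap.mkContinuous
    { toFun := fun x => (starRingEnd ℂ) (Ψ (InnerProductSpace.toDual ℂ H x))
      map_add' := fun x y => by simp
      map_smul' := fun c x => by simp [map_smulₛₗ] } ‖Ψ‖ fun x => by
        simpa using Ψ.le_opNorm (InnerProductSpace.toDual ℂ H x)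
  obtain ⟨y, hy⟩ := (InnerProductSpace.toDual ℂ H).surjective L
  refine ⟨y, ?_⟩
  ext e
  obtain ⟨x, rfl⟩ := (InnerProductSpace.toDual ℂ H).surjective e
  have h1 : inner ℂ y x = (starRingEnd ℂ) (Ψ (InnerProductSpace.toDual ℂ H x)) :=
    congrArg (fun L : StrongDual ℂ H => L x) hy
  rw [NormedSpace.dual_def, InnerProductSpace.toDual_apply_apply, ← inner_conj_symm, h1]
  simp

lemma orth_inv {A : H →L[ℂ] H} {K : Submodule ℂ H} (h : ∀ x ∈ K, adjoint A x ∈ K) :
    ∀ x ∈ Kᗮ, A x ∈ Kᗮ := fun x hx => (K.mem_orthogonal _).2 fun u hu => by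
  rw [← adjoint_inner_left]
  exact (K.mem_orthogonal _).1 hx _ (h u hu)

lemma Red.adj {T : H →L[ℂ] H} (h : Red T) : Red (adjoint T) := fun K hK hi x hx => by
  have : CompleteSpace K := hK.completeSpace_coe
  have h1 := h Kᗮ K.isClosed_orthogonal (orth_inv hi)
  have h2 := orth_inv h1
  rw [K.orthogonal_orthogonal] at h2
  rw [adjoint_adjoint]
  exact h2 x hx

lemma pow_adj {T : H →L[ℂ] H} {M : ℝ} (h : ∀ n : ℕ, ‖T ^ n‖ ≤ M) (n : ℕ) :
    ‖adjoint T ^ n‖ ≤ M := by
  rw [← star_eq_adjoint, ← star_pow, norm_star]; exact h n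

theorem Red.zero_of_adj {T : H →L[ℂ] H} (hr : Red T) {M : ℝ} (h : ∀ n : ℕ, ‖T ^ n‖ ≤ M)
    (h0 : ∀ y, Tendsto (fun n : ℕ => (adjoint T ^ n) y) atTop (𝓝 0)) (x₀ : H) :
    Tendsto (fun n : ℕ => (T ^ n) x₀) atTop (𝓝 0) := by
  by_contra hc
  have hx₀ : WW T M h x₀ ≠ 0 := fun e => hc ((WW_eq_zero h).1 e)
  have hW0 : 0 < ‖WW T M h x₀‖ := norm_pos_iff.2 hx₀
  have hW : 0 < ‖WW T M h‖ := lt_of_not_ge fun e => by
    have := (WW T M h).le_of_opNorm_le e x₀
    linarith
  obtain ⟨r, hr1⟩ : ∃ r, r = ‖WW T M h x₀‖ / 2 / ‖WW T M h‖ := ⟨_, rfl⟩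
  have hr0 : 0 < r := by rw [hr1]; positivity
  obtain ⟨φ, a, b, c⟩ := (WW_asym h).core' refl_hilbert (fun y => by
    obtain ⟨v, rfl⟩ := (InnerProductSpace.toDual ℂ H).surjective y
    have := (h0 v).norm
    rw [norm_zero] at this
    convert this using 2 with n
    rw [← (InnerProductSpace.toDual ℂ H).norm_map]
    congr 1
    ext u
    simp only [comp_apply, InnerProductSpace.toDual_apply_apply]
    rw [← star_eq_adjoint, ← star_pow, star_eq_adjoint, adjoint_inner_left]) hx₀
    (InnerProductSpace.toDual ℂ H x₀) (half_pos hr0)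
  rw [← hr1] at c
  let K : Submodule ℂ H := (LinearMap.range φ.toLinearMap).topologicalClosure
  have hKc : IsClosed (K : Set H) := Submodule.isClosed_topologicalClosure _
  have : CompleteSpace K := hKc.completeSpace_coe
  have hmem : ∀ u, φ u ∈ K := fun u => Submodule.le_topologicalClosure _ ⟨u, rfl⟩
  have hinv : ∀ x ∈ K, T x ∈ K := by
    have : K ≤ K.comap T.toLinearMap := by
      refine Submodule.topologicalClosure_minimal _ ?_ (hKc.preimage T.continuous)
      rintro _ ⟨u, rfl⟩
      change T (φ u) ∈ K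
      rw [← mul_apply_eq_comp, a T rfl]
      exact hmem _
    exact fun x hx => this hx
  have hc := a _ (Pool.Agent.P.MP_65e938_an.proj_commute K hinv (hr K hKc hinv))
  set z := x₀ - K.starProjection x₀ with hz
  have hφ : φ z = 0 := by
    have e1 : K.starProjection z = 0 := by
      rw [hz, map_sub, Submodule.starProjection_eq_self_iff.2 (K.starProjection_apply_mem x₀),
        sub_self]
    rw [← Submodule.starProjection_eq_self_iff.2 (hmem z), ← mul_apply_eq_comp, hc,
      mul_apply_eq_comp, e1, map_zero]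
  have e2 : ⟪x₀, z⟫_ℂ = ⟪z, z⟫_ℂ := by
    have : x₀ = z + K.starProjection x₀ := by rw [hz]; abel
    conv_lhs => rw [this, inner_add_left]
    rw [inner_eq_zero_symm.1 (K.starProjection_inner_eq_zero x₀ _ (K.starProjection_apply_mem x₀)),
      add_zero]
  have b1 := b z
  rw [hφ, map_zero, zero_sub, norm_neg, InnerProductSpace.toDual_apply_apply, e2,
    inner_self_eq_norm_sq_to_K] at b1
  have b2 : r ≤ ‖z‖ := by
    rw [hz, norm_sub_rev]
    have : (K : Set H) ⊆ {v | r ≤ ‖v - x₀‖} :=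
      closure_minimal (by rintro _ ⟨u, rfl⟩; exact c u) (isClosed_le (by fun_prop) (by fun_prop))
    exact this (K.starProjection_apply_mem x₀)
  simp only [Complex.coe_algebraMap, norm_pow, Complex.norm_real, norm_norm] at b1
  nlinarith

end Pool.Agent.P.MP_49c4d9_an.PBR
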