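import Pool.Agent.P.MP_49c4d9_an.PBR.A

/-!
A reductive power bounded operator such that no orbit of it or of its adjoint tends to zero
is unitary.
-/

set_option autoImplicit false

noncomputable section

namespace Pool.Agent.P.MP_49c4d9_an.PBR

open Set Filter Topology ContinuousLinearMap Pool.Agent.P.MP_f981b0_an.PB
open scoped InnerProductSpace ComplexOrder

variable {H : Type*} [NormedAddCommGroup H] [InnerProductSpace ℂ H] [CompleteSpace H]

lemma wot_lim (U : Ultrafilter ℕ) (A : ℕ → H →L[ℂ] H) {C : ℝ} (hA : ∀ n, ‖A n‖ ≤ C) :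
    ∃ P : H →L[ℂ] H, ∀ x y, Tendsto (fun n => ⟪y, A n x⟫_ℂ) U (𝓝 ⟪y, P x⟫_ℂ) := by
  have : ∀ x, ∃ z : H, ‖z‖ ≤ C * ‖x‖ ∧ ∀ y, Tendsto (fun n => ⟪y, A n x⟫_ℂ) U (𝓝 ⟪y, z⟫_ℂ) :=
    fun x => by
      obtain ⟨z, h1, h2⟩ := weak_lim refl_hilbert U (fun n => A n x) 0 (C * ‖x‖) fun n => by
        rw [sub_zero]; exact (A n).le_of_opNorm_le (hA n) x
      exact ⟨z, by simpa using h1, fun y => h2 (InnerProductSpace.toDual ℂ H y)⟩
  choose z h1 h2 using this
  refine ⟨LinearMap.mkContinuous ⟨⟨z, fun a b => ext_inner_left ℂ fun y => ?_⟩,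
    fun c a => ext_inner_left ℂ fun y => ?_⟩ C h1, h2⟩
  · refine tendsto_nhds_unique (h2 _ y) ?_
    simpa only [map_add, inner_add_right] using (h2 a y).add (h2 b y)
  · refine tendsto_nhds_unique (h2 _ y) ?_
    simpa only [map_smul, inner_smul_right, RingHom.id_apply] using (h2 a y).const_mul c

lemma exists_P {T : H →L[ℂ] H} {M : ℝ} (h : ∀ n : ℕ, ‖T ^ n‖ ≤ M) :
    ∃ P : H →L[ℂ] H, 0 ≤ P ∧ star T * P * T = P ∧
      (∀ x, P x = 0 → Tendsto (fun n : ℕ => (T ^ n) x) atTop (𝓝 0)) ∧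
      ∀ B : H →L[ℂ] H, Commute B T → Commute B (star T) → Commute B P := by
  have hM : 0 ≤ M := (norm_nonneg _).trans (h 0)
  let a : ℕ → H →L[ℂ] H := fun n => star T ^ n * T ^ n
  have ha : ∀ n, ‖a n‖ ≤ M * M := fun n => (norm_mul_le _ _).trans
    (mul_le_mul (pow_adj h n) (h n) (norm_nonneg _) hM)
  have hi : ∀ n x y, ⟪y, a n x⟫_ℂ = ⟪(T ^ n) y, (T ^ n) x⟫_ℂ := fun n x y => by
    simp only [a, mul_apply_eq_comp]
    rw [← star_pow, star_eq_adjoint, adjoint_inner_right]
  let A : ℕ → H →L[ℂ] H := fun N => (((N : ℝ) + 1)⁻¹ : ℝ) • ∑ n ∈ Finset.range (N + 1), a n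
  have hA : ∀ N, ‖A N‖ ≤ M * M := fun N => by
    rw [norm_smul, Real.norm_of_nonneg (by positivity), inv_mul_le_iff₀ (by positivity)]
    refine (norm_sum_le_of_le _ fun n _ => ha n).trans ?_
    simp
  have hAi : ∀ N x, ⟪x, A N x⟫_ℂ =
      ((((N : ℝ) + 1)⁻¹ * ∑ n ∈ Finset.range (N + 1), ‖(T ^ n) x‖ ^ 2 : ℝ) : ℂ) := fun N x => by
    simp only [A, smul_apply, sum_apply]
    rw [← Complex.coe_smul, inner_smul_right, inner_sum]
    simp only [hi, inner_self_eq_norm_sq_to_K]
    simp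
  obtain ⟨P, hP⟩ := wot_lim (hyperfilter ℕ) A hA
  have hU : (hyperfilter ℕ : Filter ℕ) ≤ atTop := Nat.hyperfilter_le_atTop
  refine ⟨P, ?_, ?_, fun x hx => ?_, fun B b1 b2 => ?_⟩
  · have hp : ∀ x, 0 ≤ ⟪x, P x⟫_ℂ := fun x => ge_of_tendsto' (hP x x) fun N => by
      rw [hAi]; exact Complex.zero_le_real.2 (by positivity)
    rw [nonneg_iff_isPositive, isPositive_iff_complex]
    intro x
    have h1 := hp x
    rw [← inner_conj_symm, ← star_nonneg_iff] at h1
    simp only [RCLike.star_def, Complex.conj_conj] at h1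
    obtain ⟨h2, h3⟩ := Complex.nonneg_iff.1 h1
    exact ⟨Complex.ext (by simp) (by simpa using h3), h2⟩
  · ext x
    refine ext_inner_left ℂ fun y => ?_
    simp only [mul_apply_eq_comp]
    rw [star_eq_adjoint, adjoint_inner_right]
    refine tendsto_nhds_unique (hP _ _) ?_
    have e : ∀ N, ⟪T y, A N (T x)⟫_ℂ = ⟪y, A N x⟫_ℂ +
        ⟪y, ((((N : ℝ) + 1)⁻¹ : ℝ) • (a (N + 1) - a 0)) x⟫_ℂ := fun N => by
      rw [← adjoint_inner_right, ← inner_add_right, ← add_apply, ← star_eq_adjoint,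
        ← mul_apply_eq_comp, ← mul_apply_eq_comp]
      congr 2
      simp only [A, mul_smul_comm, smul_mul_assoc, ← smul_add, Finset.mul_sum, Finset.sum_mul]
      congr 1
      have : ∀ n, star T * a n * T = a (n + 1) := fun n => by
        simp only [a]; rw [pow_succ', pow_succ]; noncomm_ring
      simp only [this]
      have := Finset.sum_range_succ' a (N + 1)
      rw [Finset.sum_range_succ] at this
      rw [add_sub, this]; abel
    simp only [e]
    have z : Tendsto (fun N : ℕ => ⟪y, ((((N : ℝ) + 1)⁻¹ : ℝ) • (a (N + 1) - a 0)) x⟫_ℂ)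
        atTop (𝓝 0) := by
      have t := (tendsto_one_div_add_atTop_nhds_zero_nat (𝕜 := ℝ)).mul_const
        (‖y‖ * ((M * M + M * M) * ‖x‖))
      rw [zero_mul] at t
      refine squeeze_zero_norm (fun N => (norm_inner_le_norm _ _).trans ?_) t
      rw [smul_apply, norm_smul, Real.norm_of_nonneg (by positivity), one_div, mul_left_comm]
      gcongr
      exact le_of_opNorm_le _ ((norm_sub_le _ _).trans (add_le_add (ha _) (ha _))) x
    simpa using (hP x y).add (z.mono_left hU)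
  · have t := hP x x
    rw [hx, inner_zero_right] at t
    simp only [hAi] at t
    have t' := (Complex.continuous_re.tendsto _).comp t
    simp only [Function.comp_def, Complex.ofReal_re, Complex.zero_re] at t'
    rw [Metric.tendsto_atTop]
    intro ε hε
    have hδ : 0 < ε / (M + 1) := by positivity
    obtain ⟨N, hN⟩ := (t'.eventually (gt_mem_nhds (pow_pos hδ 2))).exists
    obtain ⟨n, hn⟩ : ∃ n, ‖(T ^ n) x‖ < ε / (M + 1) := by
      by_contra hc
      push Not at hc
      rw [inv_mul_lt_iff₀ (by positivity)] at hN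
      have := Finset.card_nsmul_le_sum (Finset.range (N + 1)) (fun n => ‖(T ^ n) x‖ ^ 2) _
        fun n _ => pow_le_pow_left₀ hδ.le (hc n) 2
      simp only [Finset.card_range, nsmul_eq_mul, Nat.cast_add, Nat.cast_one] at this
      linarith
    refine ⟨n, fun k hk => ?_⟩
    obtain ⟨j, rfl⟩ := Nat.exists_eq_add_of_le' hk
    rw [dist_zero_right, pow_add, mul_apply_eq_comp]
    refine ((T ^ j).le_of_opNorm_le (h j) _).trans_lt ?_
    rw [lt_div_iff₀ (by positivity)] at hn
    nlinarith [norm_nonneg ((T ^ n) x)]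
  · have c : ∀ N, Commute B (A N) := fun N =>
      (Commute.sum_right _ _ _ fun n _ => (b2.pow_right n).mul_right (b1.pow_right n)).smul_right _
    ext x
    refine ext_inner_left ℂ fun y => ?_
    simp only [mul_apply_eq_comp]
    rw [← adjoint_inner_left]
    refine tendsto_nhds_unique (hP _ _) ?_
    convert hP (B x) y using 2 with N
    rw [adjoint_inner_left, ← mul_apply_eq_comp, (c N).eq, mul_apply_eq_comp]

lemma dense_of_adj {A : H →L[ℂ] H} (h : ∀ x, adjoint A x = 0 → x = 0) : DenseRange A := by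
  have h1 : A.range.topologicalClosure = ⊤ := by
    rw [Submodule.topologicalClosure_eq_top_iff, orthogonal_range, Submodule.eq_bot_iff]
    exact h
  exact Submodule.dense_iff_topologicalClosure_eq_top.2 h1

theorem Red.unitary {T : H →L[ℂ] H} (hr : Red T) {M : ℝ} (h : ∀ n : ℕ, ‖T ^ n‖ ≤ M)
    (h1 : ∀ x, Tendsto (fun n : ℕ => (T ^ n) x) atTop (𝓝 0) → x = 0)
    (h2 : ∀ x, Tendsto (fun n : ℕ => (adjoint T ^ n) x) atTop (𝓝 0) → x = 0) :
    star T * T = 1 ∧ T * star T = 1 := by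
  obtain ⟨P, p0, p1, p2, p3⟩ := exists_P h
  obtain ⟨Q, q0, q1, q2, -⟩ := exists_P (pow_adj h)
  rw [← star_eq_adjoint, star_star] at q1
  have hP : adjoint P = P := (IsSelfAdjoint.of_nonneg p0).star_eq
  have hQ : adjoint Q = Q := (IsSelfAdjoint.of_nonneg q0).star_eq
  have dP : DenseRange P := dense_of_adj fun x hx => h1 x (p2 x (by rwa [hP] at hx))
  have dQ : DenseRange Q := dense_of_adj fun x hx => h2 x (q2 x (by rwa [hQ] at hx))
  have dT : DenseRange T := dense_of_adj fun x hx => h2 x (by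
    rw [← tendsto_add_atTop_iff_nat 1]
    simp [pow_succ, hx])
  obtain ⟨X, x1, x2⟩ : ∃ X : H →L[ℂ] H, star X = X ∧ X * X = P :=
    ⟨CFC.sqrt P, (IsSelfAdjoint.of_nonneg (CFC.sqrt_nonneg P)).star_eq, CFC.sqrt_mul_sqrt_self P p0⟩
  have iX : ∀ x, X x = 0 → x = 0 := fun x hx => h1 x (p2 x (by
    rw [← x2, mul_apply_eq_comp, hx, map_zero]))
  have dX : DenseRange X := dense_of_adj fun x hx => iX x (by
    rwa [← star_eq_adjoint, x1] at hx)
  have hin : ∀ x y, ⟪X x, X y⟫_ℂ = ⟪x, P y⟫_ℂ := fun x y => by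
    rw [← adjoint_inner_right, ← star_eq_adjoint, x1, ← mul_apply_eq_comp, x2]
  have hin2 : ∀ x y, ⟪X (T x), X (T y)⟫_ℂ = ⟪X x, X y⟫_ℂ := fun x y => by
    rw [hin, hin, ← adjoint_inner_right, ← star_eq_adjoint, ← mul_apply_eq_comp,
      ← mul_apply_eq_comp, p1]
  have hb : ∀ x, ‖(X * T).toLinearMap x‖ ≤ 1 * ‖X.toLinearMap x‖ := fun x => by
    change ‖X (T x)‖ ≤ 1 * ‖X x‖
    rw [one_mul, norm_eq_sqrt_re_inner (𝕜 := ℂ), hin2, ← norm_eq_sqrt_re_inner]
  obtain ⟨U, hU⟩ : ∃ U : H →L[ℂ] H, U * X = X * T :=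
    ⟨(X * T).toLinearMap.extendOfNorm X.toLinearMap, by
      ext x; exact LinearMap.extendOfNorm_eq dX ⟨1, hb⟩ x⟩
  have ext : ∀ {A B C : H →L[ℂ] H}, DenseRange C → A * C = B * C → A = B := fun d e =>
    DFunLike.coe_injective (d.equalizer (map_continuous _) (map_continuous _)
      (funext fun x => DFunLike.congr_fun e x))
  have hU' : X * star U = star T * X := by simpa [x1] using congrArg star hU
  have u1 : star U * U = 1 := by
    have e1 : X * (star U * U) = X := ext dX (by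
      rw [← mul_assoc, hU', mul_assoc, hU, mul_assoc, ← mul_assoc X, x2, ← mul_assoc, p1])
    have e2 := congrArg star e1
    simp only [star_mul, star_star, x1] at e2
    exact ext dX (by rw [e2, one_mul])
  have dXT : DenseRange (X * T) := dX.comp dT X.continuous
  have u2 : U * star U = 1 := ext dXT (by rw [← hU, mul_assoc, ← mul_assoc (star U), u1]; simp)
  have hN : IsStarNormal T := by
    refine Pool.Agent.P.MP_65e938_an.normal_of_reductive (N := U) (X := X) (Y := Q * X)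
      ⟨u1.trans u2.symm⟩ ((injective_iff_map_eq_zero X).2 iX) (dQ.comp dX Q.continuous)
      hU.symm ?_ hr
    have e : X = star T * X * U := by rw [← hU', mul_assoc, u1, mul_one]
    conv_lhs => rw [e]
    rw [mul_assoc Q X, mul_assoc (star T), ← mul_assoc Q, ← mul_assoc T, ← mul_assoc T, q1]
  have c := p3 T (Commute.refl T) hN.star_comm_self.symm
  have e : star T * T = 1 := ext dP (by rw [mul_assoc, c.eq, ← mul_assoc, p1, one_mul])
  exact ⟨e, hN.star_comm_self.eq ▸ e⟩

end Pool.Agent.P.MP_49c4d9_an.PBR
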