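import Pool.Agent.P.MP_49c4d9_an.PBR.B

/-!
A reductive power bounded operator is the direct sum of a unitary operator and an operator whose
powers and adjoint powers tend to zero strongly.
-/

set_option autoImplicit false

noncomputable section

namespace Pool.Agent.P.MP_49c4d9_an.PBR

open Set Filter Topology ContinuousLinearMap
open scoped InnerProductSpace

variable {H : Type*} [NormedAddCommGroup H] [InnerProductSpace ℂ H] [CompleteSpace H]

section restrict

variable {T : H →L[ℂ] H} {K : Submodule ℂ H} [CompleteSpace K]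

omit [CompleteSpace H] [CompleteSpace K] in
lemma res_pow (h : ∀ x ∈ K, T x ∈ K) (n : ℕ) (x : K) :
    (((T.restrict h : K →L[ℂ] K) ^ n) x : H) = (T ^ n) x := by
  induction n with
  | zero => simp
  | succ n ih => rw [pow_succ', pow_succ', mul_apply_eq_comp, mul_apply_eq_comp, ← ih]; rfl

omit [CompleteSpace H] [CompleteSpace K] in
lemma res_bound (h : ∀ x ∈ K, T x ∈ K) {M : ℝ} (hM : ∀ n : ℕ, ‖T ^ n‖ ≤ M) (n : ℕ) :
    ‖(T.restrict h : K →L[ℂ] K) ^ n‖ ≤ M :=
  opNorm_le_bound _ ((norm_nonneg _).trans (hM 0)) fun x => by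
    rw [Submodule.coe_norm, res_pow]
    exact (T ^ n).le_of_opNorm_le (hM n) x

omit [CompleteSpace H] [CompleteSpace K] in
lemma res_tendsto (h : ∀ x ∈ K, T x ∈ K) (x : K) :
    Tendsto (fun n : ℕ => ((T.restrict h : K →L[ℂ] K) ^ n) x) atTop (𝓝 0) ↔
      Tendsto (fun n : ℕ => (T ^ n) x) atTop (𝓝 0) := by
  rw [tendsto_subtype_rng]
  simp only [res_pow]
  rfl

lemma res_adj (h : ∀ x ∈ K, T x ∈ K) (h' : ∀ x ∈ K, adjoint T x ∈ K) :
    adjoint (T.restrict h : K →L[ℂ] K) = (adjoint T).restrict h' := by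
  symm
  rw [eq_adjoint_iff]
  intro x y
  exact adjoint_inner_left T (y : H) (x : H)

lemma Red.res (hr : Red T) (hK : IsClosed (K : Set H)) (h : ∀ x ∈ K, T x ∈ K) :
    Red (T.restrict h : K →L[ℂ] K) := fun V hV hi x hx => by
  rw [res_adj h (hr K hK h)]
  have h1 := hr (V.map K.subtype) (hK.isClosedEmbedding_subtypeVal.isClosedMap _ hV)
    (by rintro _ ⟨v, hv, rfl⟩; exact ⟨_, hi v hv, rfl⟩) x ⟨x, hx, rfl⟩
  obtain ⟨v, hv, e⟩ := h1
  have : v = (adjoint T).restrict (hr K hK h) x := Subtype.ext e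
  rwa [← this]

end restrict

/-- The vectors whose orbit tends to zero. -/
def stab (T : H →L[ℂ] H) : Submodule ℂ H where
  carrier := {x | Tendsto (fun n : ℕ => (T ^ n) x) atTop (𝓝 0)}
  add_mem' := fun {a b} ha hb => by simpa using Tendsto.add ha hb
  zero_mem' := by simp
  smul_mem' := fun c x hx => by
    simpa only [mem_ofPred_eq, map_smul, smul_zero] using Tendsto.const_smul hx c

omit [CompleteSpace H] in
lemma stab_closed {T : H →L[ℂ] H} {M : ℝ} (h : ∀ n : ℕ, ‖T ^ n‖ ≤ M) :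
    IsClosed (stab T : Set H) := by
  have hM : 0 ≤ M := (norm_nonneg _).trans (h 0)
  refine isClosed_of_closure_subset fun x hx => Metric.tendsto_atTop.2 fun ε hε => ?_
  obtain ⟨y, hy, hd⟩ := Metric.mem_closure_iff.1 hx (ε / 2 / (M + 1)) (by positivity)
  obtain ⟨N, hN⟩ := Metric.tendsto_atTop.1 hy (ε / 2) (half_pos hε)
  refine ⟨N, fun n hn => ?_⟩
  have h1 := hN n hn
  have h2 := (T ^ n).le_of_opNorm_le (h n) (x - y)
  have h3 := norm_add_le ((T ^ n) (x - y)) ((T ^ n) y)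
  rw [← map_add, sub_add_cancel] at h3
  rw [dist_eq_norm, lt_div_iff₀ (by positivity)] at hd
  rw [dist_zero_right] at h1 ⊢
  nlinarith [norm_nonneg (x - y)]

omit [CompleteSpace H] in
lemma stab_inv (T : H →L[ℂ] H) : ∀ x ∈ stab T, T x ∈ stab T := fun x hx => by
  have := (tendsto_add_atTop_iff_nat 1).2 hx
  simp only [pow_succ, mul_apply_eq_comp] at this
  exact this

lemma Red.stab_le {T : H →L[ℂ] H} (hr : Red T) {M : ℝ} (h : ∀ n : ℕ, ‖T ^ n‖ ≤ M) :
    stab (adjoint T) ≤ stab T := fun x hx => by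
  have hK := stab_closed (pow_adj h)
  have : CompleteSpace (stab (adjoint T)) := hK.completeSpace_coe
  have h1 := stab_inv (adjoint T)
  have h2 := hr.adj _ hK h1
  rw [adjoint_adjoint] at h2
  refine (res_tendsto h2 ⟨x, hx⟩).1 ((hr.res hK h2).zero_of_adj (res_bound h2 h) (fun y => ?_) _)
  rw [res_adj h2 h1, res_tendsto]
  exact y.2

theorem Red.split {T : H →L[ℂ] H} (hr : Red T) {M : ℝ} (h : ∀ n : ℕ, ‖T ^ n‖ ≤ M) :
    ∃ K : Submodule ℂ H, IsClosed (K : Set H) ∧ (∀ x ∈ K, T x ∈ K) ∧ (∀ x ∈ Kᗮ, T x ∈ Kᗮ) ∧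
      (∀ x ∈ K, adjoint T (T x) = x ∧ T (adjoint T x) = x) ∧
      ∀ x ∈ Kᗮ, Tendsto (fun n : ℕ => (T ^ n) x) atTop (𝓝 0) ∧
        Tendsto (fun n : ℕ => (adjoint T ^ n) x) atTop (𝓝 0) := by
  have hS := stab_closed h
  have : CompleteSpace (stab T) := hS.completeSpace_coe
  have l1 := hr.stab_le h
  have l2 := hr.adj.stab_le (pow_adj h)
  rw [adjoint_adjoint] at l2
  have hK := (stab T).isClosed_orthogonal
  have i1 : ∀ x ∈ (stab T)ᗮ, T x ∈ (stab T)ᗮ := orth_inv (hr _ hS (stab_inv T))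
  have i2 := hr _ hK i1
  have z : ∀ x : (stab T)ᗮ, (x : H) ∈ stab T → x = 0 := fun x hx =>
    Subtype.ext (inner_self_eq_zero.1 ((stab T).inner_right_of_mem_orthogonal hx x.2))
  obtain ⟨u1, u2⟩ := (hr.res hK i1).unitary (res_bound i1 h)
    (fun x hx => z x ((res_tendsto i1 x).1 hx))
    (fun x hx => z x (l1 ((res_tendsto i2 x).1 (by rwa [res_adj i1 i2] at hx))))
  rw [star_eq_adjoint, res_adj i1 i2] at u1 u2
  refine ⟨(stab T)ᗮ, hK, i1, ?_, fun x hx => ⟨?_, ?_⟩, ?_⟩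
  · rw [Submodule.orthogonal_orthogonal]; exact stab_inv T
  · exact congrArg Subtype.val (DFunLike.congr_fun u1 ⟨x, hx⟩)
  · exact congrArg Subtype.val (DFunLike.congr_fun u2 ⟨x, hx⟩)
  · rw [Submodule.orthogonal_orthogonal]; exact fun x hx => ⟨hx, l2 hx⟩

end Pool.Agent.P.MP_49c4d9_an.PBR
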